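import Pool.Agent.H128.Fan.Lk
import Pool.Agent.H128.Cox.Asm
import Pool.Agent.H128.Bend.Cls

/-!
# The flag complex inequality with Coxeter edge weights for bent complete simplicial fans

`S` is the set of faces of a simplicial complex on `Fin n`, and `p` realizes it as a complete simplicial fan in `ℝ^d`
(which need not be rational or the normal fan of a polytope).

The hypothesis `Admissible S p`: the fan bends at all faces `H` for which `d - |H|` is odd, or it is in the class
`Bent`. `Bends S p H`: there is a positive semidefinite quadratic relation `∑ G_uv x_u x_v = 0` in the face ring modulo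
the linear forms (for example given by a realization of the fan in some `ℝ^N` which is isometric on the cones) and a
vector in the image of `G` which is zero on `H` and positive on the link of `H`. The class `Bent` contains the fans
without nonzero positive semidefinite `2`-stress, the fans of simplicial hyperplane arrangements, the fans in the plane
with at least four rays, the fans obtained from all these by edge subdivisions and joins, the fans with a strictly
convex function whose negative square is a sum of squares, and the common refinements of preimages of bent fans under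
linear maps (in particular, normal fans of simple Minkowski sums).

The weights of the edges are the entries of a Coxeter matrix (an entry `0` means `∞`), and `W_σ` is the Coxeter group
generated by the vertices of `σ`.
-/

set_option autoImplicit false

namespace Pool.Agent.Results.MP_375bfa_co.CoxeterWeightsBentFans

open Pool.Agent.Helper611.ZBase Pool.Agent.H128.Fan Pool.Agent.H128.Bend

variable {n d : ℕ}

/-- The link of `H`. -/
def link (S : Finset (Finset (Fin n))) (H : Finset (Fin n)) : Finset (Finset (Fin n)) :=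
  S.filter fun G => Disjoint G H ∧ G ∪ H ∈ S

/-- The Coxeter matrix `(m_uv)`, `u, v ∈ σ`. -/
def restrict (M : CoxeterMatrix (Fin n)) (σ : Finset (Fin n)) : CoxeterMatrix σ where
  M := M.M.submatrix (fun i => i.1) (fun i => i.1)
  isSymm := M.isSymm.submatrix _
  diagonal i := M.diagonal i.1
  off_diagonal i j h := M.off_diagonal i.1 j.1 (fun e => h (Subtype.ext e))

/-- The order of the Coxeter group `W_σ`, generated by the vertices `v` of `σ`, with the relations `s_v ^ 2 = 1` and
`(s_u s_v) ^ m_uv = 1`. -/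
noncomputable def order (M : CoxeterMatrix (Fin n)) (σ : Finset (Fin n)) : ℕ :=
  Nat.card (restrict M σ).Group

/-- **The flag complex inequality with Coxeter edge weights for bent fans.** Let `S`, `p` be an admissible complete
simplicial fan in `ℝ^d`, and let `m_uv < ∞` be weights of the edges such that all groups `W_σ`, `σ ∈ S`, are finite. For
each face `H` with `d = 2 m + |H|` the sums over the link of `H` satisfy
`0 ≤ (-1)^m ∑ (-1/2)^|σ| ≤ (-1)^m ∑ (-1)^|σ| / |W_σ|`. -/
theorem result (hd : 1 ≤ d) (S : Finset (Finset (Fin n))) (p : Fin n → Fin d → ℝ) (h : Admissible S p)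
    (M : CoxeterMatrix (Fin n)) (hM : ∀ u v, ({u, v} : Finset (Fin n)) ∈ S → M u v ≠ 0)
    (hfin : ∀ σ ∈ S, Finite (restrict M σ).Group)
    (H : Finset (Fin n)) (hH : H ∈ S) (m : ℕ) (hm : d = 2 * m + H.card) :
    0 ≤ (-1 : ℚ) ^ m * ∑ σ ∈ link S H, (-1 / 2 : ℚ) ^ σ.card ∧
    (-1 : ℚ) ^ m * ∑ σ ∈ link S H, (-1 / 2 : ℚ) ^ σ.card ≤
      (-1 : ℚ) ^ m * ∑ σ ∈ link S H, (-1 : ℚ) ^ σ.card / (order M σ : ℚ) := by
  obtain ⟨hS, hfan, hb⟩ := admissible h
  classical
  have h0 : (∅ : Finset (Fin n)) ∈ S := hS H hH ∅ (Finset.empty_subset H)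
  let Γ : Cx (Fin n) := ⟨S, h0, fun σ hσ τ hτ => hS σ hσ τ hτ⟩
  have hf : IsFan Γ p := hfan
  have hcd := fun K hK m hm => charney_davisB hf hd hb K hK m hm
  have hs : ∀ σ ∈ Γ.faces, σ.card ≤ d := by
    intro σ hσ
    have := (Pool.Agent.H128.Fan.Lem.fan_li hf σ hσ).fintype_card_le_finrank
    simpa using this
  have hL : link S H = (lkC Γ H hH).faces := rfl
  rw [hL]
  set Δ := lkC Γ H hH with hΔ
  have hΔS : ∀ σ ∈ Δ.faces, σ ∈ S := fun σ hσ => (Finset.mem_filter.1 hσ).1
  have hT := Pool.Agent.H128.Cox.Lem.transfer Δ.faces (fun F hF G hG => Δ.down F hF G hG)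
    (fun σ => 1 / (Nat.card (Pool.Agent.H128.Cox.res M σ).Group : ℚ))
  have hsg := fun σ (hσ : σ ∈ Δ.faces) =>
    Pool.Agent.H128.Cox.sign_sum_finset M σ
      (fun i hi j hj => hM i j (hS σ (hΔS σ hσ) _ (by
        intro x hx
        rcases Finset.mem_insert.1 hx with rfl | hx
        · exact hi
        · exact (Finset.mem_singleton.1 hx) ▸ hj)))
      (fun U hU => hfin U (hS σ (hΔS σ hσ) U hU))
  have hsmall := lkC_small hs H hH
  -- each term of the transfer formula has the right sign
  have hterm : ∀ σ ∈ Δ.faces, 0 ≤ (-1 : ℚ) ^ m * ((-1 : ℚ) ^ σ.card *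
      (∑ U ∈ σ.powerset, (-1 / 2 : ℚ) ^ (σ.card - U.card) *
        (1 / (Nat.card (Pool.Agent.H128.Cox.res M U).Group : ℚ))) *
      ∑ ρ ∈ Δ.faces.filter (fun ρ => Disjoint ρ σ ∧ ρ ∪ σ ∈ Δ.faces), (-1 / 2 : ℚ) ^ ρ.card) := by
    intro σ hσ
    rcases Nat.even_or_odd' σ.card with ⟨k, hk | hk⟩
    · have h1 := (hsg σ hσ).2 k hk
      have h2 : 0 ≤ (-1 : ℚ) ^ (m - k) *
          ∑ ρ ∈ Δ.faces.filter (fun ρ => Disjoint ρ σ ∧ ρ ∪ σ ∈ Δ.faces), (-1 / 2 : ℚ) ^ ρ.card := by
        have h3 := lkf_lkC Γ H hH σ hσ
        have h4 := mem_lkf.1 hσ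
        have h5 := hcd (σ ∪ H) h4.2 (m - k) (by
          rw [Finset.card_union_of_disjoint h4.1]
          have := hsmall σ hσ
          omega)
        rw [← h3] at h5
        exact h5
      have hkm : k ≤ m := by
        have := hsmall σ hσ
        omega
      have e1 : (-1 : ℚ) ^ m = (-1) ^ k * (-1) ^ (m - k) := by rw [← pow_add]; congr 1; omega
      have e2 : (-1 : ℚ) ^ σ.card = 1 := by rw [hk, pow_mul]; norm_num
      rw [e1, e2, one_mul]
      have := mul_nonneg h1 h2
      calc (0 : ℚ) ≤ _ := this
        _ = _ := by ring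
    · have h1 := (hsg σ hσ).1 ⟨k, hk⟩
      rw [h1, mul_zero, zero_mul, mul_zero]
  have hemp : (∅ : Finset (Fin n)) ∈ Δ.faces := Δ.empty_mem
  have hmain : (-1 : ℚ) ^ m * ∑ σ ∈ Δ.faces, (-1 / 2 : ℚ) ^ σ.card ≤
      (-1 : ℚ) ^ m * ∑ σ ∈ Δ.faces, (-1 : ℚ) ^ σ.card *
        (1 / (Nat.card (Pool.Agent.H128.Cox.res M σ).Group : ℚ)) := by
    rw [hT, Finset.mul_sum _ _ ((-1 : ℚ) ^ m), Finset.mul_sum _ _ ((-1 : ℚ) ^ m)]
    rw [← Finset.mul_sum]
    refine le_trans (le_of_eq ?_) (Finset.single_le_sum hterm hemp)
    have e1 : (∑ U ∈ (∅ : Finset (Fin n)).powerset, (-1 / 2 : ℚ) ^ ((∅ : Finset (Fin n)).card - U.card) *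
        (1 / (Nat.card (Pool.Agent.H128.Cox.res M U).Group : ℚ))) = 1 := by
      rw [Finset.powerset_empty, Finset.sum_singleton]
      have h2 : Nat.card (Pool.Agent.H128.Cox.res M (∅ : Finset (Fin n))).Group = 1 := by
        haveI : Subsingleton (Pool.Agent.H128.Cox.res M (∅ : Finset (Fin n))).Group := by
          refine ⟨fun a b => ?_⟩
          have key : ∀ w : (Pool.Agent.H128.Cox.res M (∅ : Finset (Fin n))).Group, w = 1 := by
            intro w
            refine (Pool.Agent.H128.Cox.res M ∅).toCoxeterSystem.simple_induction (p := fun w => w = 1) w ?_ rfl ?_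
            · intro i
              exact absurd i.2 (Finset.notMem_empty _)
            · intro w w' h h'
              rw [h, h', one_mul]
          rw [key a, key b]
        exact Nat.card_unique
      rw [h2]
      norm_num
    rw [e1, Finset.card_empty, pow_zero, one_mul, one_mul]
    congr 1
    refine Finset.sum_congr ?_ fun _ _ => rfl
    ext ρ
    rw [Finset.mem_filter]
    exact ⟨fun h => ⟨h, Finset.disjoint_empty_right _, by rwa [Finset.union_empty]⟩, fun h => h.1⟩
  refine ⟨?_, hmain.trans (le_of_eq ?_)⟩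
  · exact hcd H hH m hm
  · congr 1
    refine Finset.sum_congr rfl fun σ _ => ?_
    rw [mul_one_div]
    rfl

end Pool.Agent.Results.MP_375bfa_co.CoxeterWeightsBentFans
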