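import Pool.Agent.H128.SDim
import Pool.Agent.H128.Sep

/-!
# The Charney-Davis inequality and sums of squares

`Γ` is a generalized homology `(d - 1)`-sphere, `p` gives a real linear system of parameters, `JJ Γ p` is the ideal of
the face ring modulo these linear forms, so that `A = ℝ[Γ]/(θ)` is the quotient of the polynomial ring by `JJ Γ p`.

If a linear form `ℓ₀` satisfies the Hodge-Riemann relations below the middle and `-ℓ₀²` is a sum of squares of elements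
of `A₁`, or there is no positive semidefinite `2`-stress, then the Charney-Davis inequality holds.
-/

set_option autoImplicit false
set_option linter.unusedSectionVars false

namespace Pool.Agent.Results.MP_375bfa_co.SumOfSquares

open Pool.Agent.Helper611.ZBase Pool.Agent.H252R2.Lef7 Pool.Agent.H252R2.CDNum
  Pool.Agent.H252R2.Top2 Pool.Agent.H128.SRing Pool.Agent.H128.SDim
open MvPolynomial Module

variable {V : Type} [Fintype V] [LinearOrder V] {d : ℕ}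

/-- `T` is a linear functional on the quotient ring `A`. -/
def IsFunctional (Γ : Cx V) (p : V → Fin d → ℝ) (T : MvPolynomial V ℝ →ₗ[ℝ] ℝ) : Prop :=
  ∀ f ∈ JJ Γ p, T f = 0

/-- The Hodge-Riemann relations below the middle degree: the form `(-1)^i T(ℓ₀^(d-2i) f²)` is positive on the primitive
elements of `A_i`. -/
def HodgeRiemann (Γ : Cx V) (p : V → Fin d → ℝ) (T : MvPolynomial V ℝ →ₗ[ℝ] ℝ)
    (ℓ₀ : MvPolynomial V ℝ) : Prop :=
  ∀ i, 2 * i < d → ∀ f : MvPolynomial V ℝ, f.IsHomogeneous i → ℓ₀ ^ (d - 2 * i + 1) * f ∈ JJ Γ p →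
    f ∉ JJ Γ p → 0 < (-1 : ℝ) ^ i * T (ℓ₀ ^ (d - 2 * i) * f ^ 2)

/-- `-ℓ₀²` is a sum of squares of linear forms in `A`. -/
def NegSquareIsSOS (Γ : Cx V) (p : V → Fin d → ℝ) (ℓ₀ : MvPolynomial V ℝ) : Prop :=
  ∃ (m : ℕ) (ℓ : Fin m → MvPolynomial V ℝ), (∀ j, (ℓ j).IsHomogeneous 1) ∧
    ℓ₀ ^ 2 + ∑ j, ℓ j ^ 2 ∈ JJ Γ p

/-- Every functional on `A` which is positive semidefinite on `A₁` (a positive semidefinite `2`-stress) vanishes on the
squares of the elements of `A₁`. -/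
def NoPSDStress (Γ : Cx V) (p : V → Fin d → ℝ) : Prop :=
  ∀ S : MvPolynomial V ℝ →ₗ[ℝ] ℝ, IsFunctional Γ p S →
    (∀ g : MvPolynomial V ℝ, g.IsHomogeneous 1 → 0 ≤ S (g ^ 2)) →
    ∀ g : MvPolynomial V ℝ, g.IsHomogeneous 1 → S (g ^ 2) = 0

lemma alt_sum (h : ℕ → ℤ) (a : ℕ) : (-1 : ℤ) ^ a * altsum h a = ∑ i ∈ Finset.range (a + 1), (-1) ^ i * h i := by
  induction a with
  | zero =>
    show (-1 : ℤ) ^ 0 * h 0 = _
    simp
  | succ a ih =>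
    rw [Finset.sum_range_succ, ← ih]
    show (-1) ^ (a + 1) * (h (a + 1) - altsum h a) = _
    ring

lemma sum_symm (h : ℕ → ℤ) (n : ℕ) (hs : ∀ i, i ≤ 2 * (n + 1) → h i = h (2 * (n + 1) - i)) :
    ∑ i ∈ Finset.range (2 * (n + 1) + 1), (-1 : ℤ) ^ i * h i =
      (-1) ^ (n + 1) * (h (n + 1) - 2 * altsum h n) := by
  have e1 : 2 * (n + 1) + 1 = (n + 1) + (1 + (n + 1)) := by ring
  rw [e1, Finset.sum_range_add _ (n + 1) (1 + (n + 1)), Finset.sum_range_add _ 1 (n + 1),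
    Finset.sum_range_one, add_zero]
  have e2 : ∑ x ∈ Finset.range (n + 1), (-1 : ℤ) ^ (n + 1 + (1 + x)) * h (n + 1 + (1 + x)) =
      ∑ i ∈ Finset.range (n + 1), (-1 : ℤ) ^ i * h i := by
    rw [← Finset.sum_range_reflect]
    refine Finset.sum_congr rfl fun j hj => ?_
    have hj' := Finset.mem_range.1 hj
    have e3 : n + 1 + (1 + (n + 1 - 1 - j)) = 2 * (n + 1) - j := by omega
    rw [e3, ← hs j (by omega)]
    congr 1
    have e4 : 2 * (n + 1) = (2 * (n + 1) - j) + j := by omega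
    have e5 : (-1 : ℤ) ^ (2 * (n + 1)) = 1 := by rw [pow_mul]; norm_num
    have e6 : (-1 : ℤ) ^ j * (-1) ^ j = 1 := by rw [← pow_add, ← two_mul, pow_mul]; norm_num
    calc (-1 : ℤ) ^ (2 * (n + 1) - j) = (-1) ^ (2 * (n + 1) - j) * ((-1) ^ j * (-1) ^ j) := by
          rw [e6, mul_one]
      _ = (-1) ^ (2 * (n + 1) - j + j) * (-1) ^ j := by rw [pow_add]; ring
      _ = (-1) ^ j := by rw [← e4, e5, one_mul]
  rw [e2, ← alt_sum h n]
  ring

lemma cd_sum (Γ : Cx V) (hs : ∀ σ ∈ Γ.faces, σ.card ≤ d) :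
    ∑ σ ∈ Γ.faces, (-1 / 2 : ℚ) ^ σ.card =
      (1 / 2) ^ d * ((∑ i ∈ Finset.range (d + 1), (-1) ^ i * hn d (fnum Γ) i : ℤ) : ℚ) := by
  classical
  have h1 := congrArg (Polynomial.aeval (-1 / 2 : ℚ)) (fp_eq d (fnum Γ))
  unfold fp at h1
  rw [map_sum, map_sum] at h1
  have h2 : ∑ σ ∈ Γ.faces, (-1 / 2 : ℚ) ^ σ.card =
      ∑ j ∈ Finset.range (d + 1), (Polynomial.aeval (-1 / 2 : ℚ)) (fnum Γ j • (Polynomial.X : Polynomial ℤ) ^ j) := by
    have h3 : ∀ σ ∈ Γ.faces, σ.card ∈ Finset.range (d + 1) := fun σ hσ =>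
      Finset.mem_range.2 (Nat.lt_succ_of_le (hs σ hσ))
    rw [← Finset.sum_fiberwise_of_maps_to h3]
    refine Finset.sum_congr rfl fun j _ => ?_
    have h4 : ∀ σ ∈ Γ.faces.filter (fun σ => σ.card = j), (-1 / 2 : ℚ) ^ σ.card = (-1 / 2) ^ j :=
      fun σ hσ => by rw [(Finset.mem_filter.1 hσ).2]
    rw [Finset.sum_congr rfl h4, Finset.sum_const, nsmul_eq_mul, map_zsmul, map_pow,
      Polynomial.aeval_X, zsmul_eq_mul]
    unfold fnum
    push_cast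
    rfl
  rw [h2, h1]
  push_cast
  rw [Finset.mul_sum]
  refine Finset.sum_congr rfl fun i hi => ?_
  have hi' := Finset.mem_range.1 hi
  rw [map_zsmul, map_mul, map_pow, map_pow, map_add, map_one, Polynomial.aeval_X, zsmul_eq_mul]
  have e1 : d = i + (d - i) := by omega
  have e2 : (1 / 2 : ℚ) ^ d = (1 / 2) ^ i * (1 / 2) ^ (d - i) := by rw [← pow_add, ← e1]
  have e3 : (-1 / 2 : ℚ) ^ i = (-1) ^ i * (1 / 2) ^ i := by rw [← mul_pow]; norm_num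
  have e4 : (1 + -1 / 2 : ℚ) = 1 / 2 := by norm_num
  rw [e2, e3, e4]
  ring

/-- positive semidefinite functionals on the quotient ring and on the polynomial ring -/
lemma noPSD_lift {Γ : Cx V} {p : V → Fin d → ℝ} (hno : NoPSDStress Γ p) :
    ∀ S : QQ Γ p →ₗ[ℝ] ℝ, (∀ x ∈ AA Γ p 1, 0 ≤ S (x ^ 2)) → ∀ x ∈ AA Γ p 1, S (x ^ 2) = 0 := by
  intro S hS x hx
  obtain ⟨f, hf, rfl⟩ := hx
  exact hno (S.comp (Ideal.Quotient.mkₐ ℝ (JJ Γ p)).toLinearMap) (fun g hg => by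
    have h2 : Ideal.Quotient.mk (JJ Γ p) g = 0 := Ideal.Quotient.eq_zero_iff_mem.2 hg
    show S (Ideal.Quotient.mk (JJ Γ p) g) = 0
    rw [h2, map_zero]) (fun g hg => hS _ (mem_AA 1 g hg)) f hf

/-- Let `Γ` be a generalized homology `(d - 1)`-sphere and `A = ℝ[Γ]/(θ)`. If a linear form `ℓ₀` satisfies the
Hodge-Riemann relations below the middle and either `-ℓ₀²` is a sum of squares of elements of `A₁`, or there is no
positive semidefinite `2`-stress, then `h_{k+1} ≥ 2 (h_k - h_{k-1} + ...)` for `2 (k + 1) ≤ d`; for `d = 2n` the case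
`k = n - 1` is the Charney-Davis inequality. -/
theorem result (V : Type) [Fintype V] [LinearOrder V] (Γ : Cx V) (d : ℕ) (hd : 1 ≤ d) (hΓ : Hyp Γ d)
    (p : V → Fin d → ℝ) (hp : ∀ σ ∈ Γ.faces, LinearIndependent ℝ (fun v : σ => p v))
    (T : MvPolynomial V ℝ →ₗ[ℝ] ℝ) (hT : IsFunctional Γ p T) (ℓ₀ : MvPolynomial V ℝ)
    (hℓ₀ : ℓ₀.IsHomogeneous 1) (hHR : HodgeRiemann Γ p T ℓ₀)
    (hcase : NegSquareIsSOS Γ p ℓ₀ ∨ NoPSDStress Γ p) :
    (∀ k, 2 * (k + 1) ≤ d → 2 * altsum (hn d (fnum Γ)) k ≤ hn d (fnum Γ) (k + 1)) ∧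
    (∀ n, d = 2 * n → 0 ≤ (-1 : ℚ) ^ n * ∑ σ ∈ Γ.faces, (-1 / 2 : ℚ) ^ σ.card) := by
  obtain ⟨lam, hlam⟩ := exists_lam T hT
  have hHR' : HR Γ p lam (Ideal.Quotient.mk (JJ Γ p) ℓ₀) := by
    intro i hi x hx hx1 hx2
    obtain ⟨f, hf, rfl⟩ := hx
    have h1 : Ideal.Quotient.mk (JJ Γ p) (ℓ₀ ^ (d - 2 * i + 1) * f) = 0 := by
      rw [map_mul, map_pow]
      exact hx1
    have h2 : f ∉ JJ Γ p := fun h => hx2 (Ideal.Quotient.eq_zero_iff_mem.2 h)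
    have h3 := hHR i hi f hf (Ideal.Quotient.eq_zero_iff_mem.1 h1) h2
    rw [← hlam, map_mul, map_pow, map_pow] at h3
    exact h3
  have hsos : ∃ (m : ℕ) (ℓ : Fin m → QQ Γ p), (∀ j, ℓ j ∈ AA Γ p 1) ∧
      (Ideal.Quotient.mk (JJ Γ p) ℓ₀) ^ 2 + ∑ j, ℓ j ^ 2 = 0 := by
    rcases hcase with ⟨m, ℓ, hℓ, hsq⟩ | hno
    · refine ⟨m, fun j => Ideal.Quotient.mk (JJ Γ p) (ℓ j), fun j => mem_AA 1 _ (hℓ j), ?_⟩
      have h2 := Ideal.Quotient.eq_zero_iff_mem.2 hsq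
      rw [map_add, map_sum, map_pow] at h2
      rw [← h2]
      congr 1
    · refine Pool.Agent.H128.Sep.sos_of_noPSD (AA Γ p 1) (AA Γ p 2) (fun x hx => ?_)
        (noPSD_lift hno) _ (mem_AA 1 _ hℓ₀)
      rw [pow_two]
      exact AA_mul 1 1 x x hx hx
  obtain ⟨m, ℓ, hℓ, hsq⟩ := hsos
  have key := ineq hΓ hd hp lam _ (mem_AA 1 _ hℓ₀) hHR' ℓ hℓ hsq
  refine ⟨fun k hk => key k hk, fun n hn' => ?_⟩
  obtain ⟨n, rfl⟩ : ∃ k, n = k + 1 := ⟨n - 1, by omega⟩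
  subst hn'
  rw [cd_sum Γ hΓ.small, sum_symm _ n (fun i hi => hsymm hΓ hd i hi)]
  have h1 := key n le_rfl
  push_cast
  have h2 : (0 : ℚ) ≤ (hn (2 * (n + 1)) (fnum Γ) (n + 1) : ℚ) -
      2 * (altsum (hn (2 * (n + 1)) (fnum Γ)) n : ℚ) := by
    have h3 : (0 : ℤ) ≤ hn (2 * (n + 1)) (fnum Γ) (n + 1) -
        2 * altsum (hn (2 * (n + 1)) (fnum Γ)) n := by
      linarith
    exact_mod_cast h3
  have h3 : (-1 : ℚ) ^ (n + 1) * ((1 / 2) ^ (2 * (n + 1)) * ((-1) ^ (n + 1) *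
      ((hn (2 * (n + 1)) (fnum Γ) (n + 1) : ℚ) -
        2 * (altsum (hn (2 * (n + 1)) (fnum Γ)) n : ℚ)))) =
      (1 / 2) ^ (2 * (n + 1)) * ((hn (2 * (n + 1)) (fnum Γ) (n + 1) : ℚ) -
        2 * (altsum (hn (2 * (n + 1)) (fnum Γ)) n : ℚ)) := by
    have e1 : (-1 : ℚ) ^ (n + 1) * (-1) ^ (n + 1) = 1 := by
      rw [← pow_add, ← two_mul, pow_mul]
      norm_num
    linear_combination ((1 / 2 : ℚ) ^ (2 * (n + 1)) *
      ((hn (2 * (n + 1)) (fnum Γ) (n + 1) : ℚ) -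
        2 * (altsum (hn (2 * (n + 1)) (fnum Γ)) n : ℚ))) * e1
  rw [h3]
  exact mul_nonneg (by positivity) h2

end Pool.Agent.Results.MP_375bfa_co.SumOfSquares
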